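import Pool.Agent.Y307.Prof.Walk
import Pool.Agent.Helper394.Wrap

/-!
Walks with holding probability `θ` whose other steps are uniform on `S`.
-/

set_option autoImplicit false

open Finset Pool.Agent.Helper394 Pool.Agent.Y307.Prof

namespace Pool.Agent.X127.Cyc

noncomputable section

variable {G : Type} [AddCommGroup G]

/-- the averaging operator with holding probability `θ` -/
def W (θ : ℝ) (S : Finset G) : Module.End ℝ (G → ℝ) := (1 - θ) • U S + θ • 1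

theorem W_apply (θ : ℝ) (S : Finset G) (f : G → ℝ) (x : G) :
    W θ S f x = (1 - θ) * U S f x + θ * f x := by
  simp [W]

theorem W_pow_apply (θ : ℝ) (S : Finset G) (t : ℕ) (f : G → ℝ) (x : G) :
    (W θ S ^ t) f x = ∑ k ∈ range (t + 1),
      ((1 - θ) ^ k * θ ^ (t - k) * (t.choose k : ℝ)) * (U S ^ k) f x := by
  have hc : Commute ((1 - θ) • U S) (θ • (1 : Module.End ℝ (G → ℝ))) :=
    ((Commute.one_right (U S)).smul_right θ).smul_left (1 - θ)
  rw [W, hc.add_pow]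
  simp only [LinearMap.sum_apply, Finset.sum_apply]
  refine Finset.sum_congr rfl fun k _ => ?_
  rw [smul_pow, smul_pow, one_pow, Module.End.mul_apply, Module.End.mul_apply,
    Module.End.natCast_apply, LinearMap.smul_apply, LinearMap.smul_apply, Module.End.one_apply,
    map_smul, map_nsmul]
  simp only [Pi.smul_apply, smul_eq_mul, nsmul_eq_mul, Pi.mul_apply, Pi.natCast_apply]
  ring

theorem W_pow_const (θ : ℝ) (S : Finset G) (hS : S.Nonempty) (n : ℕ) (c : ℝ) :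
    (W θ S ^ n) (fun _ => c) = fun _ => c := by
  induction n with
  | zero => simp
  | succ n ih =>
    rw [pow_succ', Module.End.mul_apply, ih]
    ext x
    rw [W_apply, U_const S hS]
    ring

theorem binom (θ w : ℝ) (t : ℕ) :
    ∑ k ∈ range (t + 1), ((1 - θ) ^ k * θ ^ (t - k) * (t.choose k : ℝ)) * w ^ k =
      (1 - (1 - θ) * (1 - w)) ^ t := by
  have h := add_pow ((1 - θ) * w) θ t
  have e : (1 - θ) * w + θ = 1 - (1 - θ) * (1 - w) := by ring
  rw [e] at h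
  rw [h]
  refine Finset.sum_congr rfl fun k _ => ?_
  rw [mul_pow]; ring

theorem binom_one (θ : ℝ) (t : ℕ) :
    ∑ k ∈ range (t + 1), ((1 - θ) ^ k * θ ^ (t - k) * (t.choose k : ℝ)) = 1 := by
  have h := binom θ 1 t
  simpa using h

section

variable [Fintype G] [DecidableEq G] {S : Finset G} {R Q : ℕ} {w θ : ℝ}

theorem coef_nonneg (h0 : 0 ≤ θ) (h1 : θ ≤ 1) (t k : ℕ) :
    0 ≤ (1 - θ) ^ k * θ ^ (t - k) * (t.choose k : ℝ) := by
  have : 0 ≤ 1 - θ := by linarith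
  positivity

theorem W_low (h : Expo S R Q w) (h0 : 0 ≤ θ) (h1 : θ ≤ 1) :
    ∃ E : Finset G, (Q : ℝ) * (E.card : ℝ) ≤ Fintype.card G ∧
    ∀ j ≤ R, (1 - 1 / (Q : ℝ)) * (1 - (1 - θ) * (1 - w)) ^ j ≤
      (W θ S ^ j) (fun x => if x ∈ E then (1 : ℝ) else 0) 0 := by
  obtain ⟨E, hE, hl⟩ := h.lower
  refine ⟨E, hE, fun j hj => ?_⟩
  rw [W_pow_apply, ← binom, Finset.mul_sum]
  apply Finset.sum_le_sum
  intro k hk
  rw [Finset.mem_range] at hk
  have h2 := hl k (by omega)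
  have h3 := mul_le_mul_of_nonneg_left h2 (coef_nonneg h0 h1 j k)
  linarith

theorem W_up (h : Expo S R Q w) (hQ : 1 ≤ Q) (hw0 : 0 < w) (hw1 : w < 1)
    (h0 : 0 ≤ θ) (h1 : θ ≤ 1) (k : ℕ) (f : G → ℝ) (hf : ∀ x, 0 ≤ f x) (x : G) :
    (1 - 1 / (Q : ℝ)) * (1 - (1 - (1 - θ) * (1 - w)) ^ k * (1 / w ^ 2)) *
      ((∑ y, f y) / Fintype.card G) ≤ (W θ S ^ k) f x := by
  rw [W_pow_apply, ← binom]
  set mn := (∑ y, f y) / (Fintype.card G : ℝ) with hmn
  calc (1 - 1 / (Q : ℝ)) * (1 - (∑ j ∈ range (k + 1),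
        ((1 - θ) ^ j * θ ^ (k - j) * (k.choose j : ℝ)) * w ^ j) * (1 / w ^ 2)) * mn
      = ∑ j ∈ range (k + 1), ((1 - θ) ^ j * θ ^ (k - j) * (k.choose j : ℝ)) *
          ((1 - 1 / (Q : ℝ)) * (1 - w ^ j * (1 / w ^ 2)) * mn) := by
        have e2 : ∑ j ∈ range (k + 1), ((1 - θ) ^ j * θ ^ (k - j) * (k.choose j : ℝ)) *
            ((1 - 1 / (Q : ℝ)) * (1 - w ^ j * (1 / w ^ 2)) * mn) =
            (1 - 1 / (Q : ℝ)) * mn * (∑ j ∈ range (k + 1),
              ((1 - θ) ^ j * θ ^ (k - j) * (k.choose j : ℝ)) -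
              (1 / w ^ 2) * ∑ j ∈ range (k + 1),
                ((1 - θ) ^ j * θ ^ (k - j) * (k.choose j : ℝ)) * w ^ j) := by
          rw [Finset.mul_sum, ← Finset.sum_sub_distrib, Finset.mul_sum]
          refine Finset.sum_congr rfl fun j _ => ?_
          ring
        rw [e2, binom_one]
        ring
    _ ≤ _ := by
        apply Finset.sum_le_sum
        intro j _
        apply mul_le_mul_of_nonneg_left _ (coef_nonneg h0 h1 k j)
        exact h.up hQ hw0 hw1 j f hf x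

variable {P : Matrix G G ℝ}

theorem W_row_sum (hS : S.Nonempty) (hP : ∀ f : G → ℝ, P.mulVec f = W θ S f) (t : ℕ) (x : G) :
    ∑ y, (P ^ t) x y = 1 := by
  have := mat_sum hP t x (fun _ => 1)
  rw [W_pow_const θ S hS] at this
  simpa using this

theorem W_entry (h : Expo S R Q w) (hQ : 1 ≤ Q) (hw0 : 0 < w) (hw1 : w < 1)
    (h0 : 0 ≤ θ) (h1 : θ ≤ 1)
    (hP : ∀ f : G → ℝ, P.mulVec f = W θ S f) (k : ℕ) (x y : G) :
    ((1 - 1 / (Q : ℝ)) * (1 - (1 - (1 - θ) * (1 - w)) ^ k * (1 / w ^ 2))) / Fintype.card G ≤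
      (P ^ k) x y := by
  rw [mat_entry hP]
  have := W_up h hQ hw0 hw1 h0 h1 k (Pi.single y 1) (fun z => by
    rw [Pi.single_apply]; split_ifs <;> norm_num) x
  rw [Finset.sum_pi_single' y (1 : ℝ) univ] at this
  simp only [Finset.mem_univ, if_true] at this
  calc _ = (1 - 1 / (Q : ℝ)) * (1 - (1 - (1 - θ) * (1 - w)) ^ k * (1 / w ^ 2)) *
        (1 / Fintype.card G) := by ring
    _ ≤ _ := this

theorem W_tv (h : Expo S R Q w) (hS : S.Nonempty) (hQ : 1 ≤ Q) (h0 : 0 ≤ θ) (h1 : θ ≤ 1)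
    (hP : ∀ f : G → ℝ, P.mulVec f = W θ S f) (k : ℕ) (hk : k ≤ R) :
    (1 - 1 / (Q : ℝ)) * (1 - (1 - θ) * (1 - w)) ^ k - 1 / (Q : ℝ) ≤
      (1 / 2 : ℝ) * ∑ y, |(P ^ k) 0 y - 1 / (Fintype.card G : ℝ)| := by
  obtain ⟨E, hE, hl⟩ := W_low h h0 h1
  refine tv_low _ (W_row_sum hS hP k 0) Q hQ E hE _ ?_
  rw [mat_sum hP]
  exact hl k hk

/-- the spectrum -/
theorem W_spec {T : ℕ} (h : Bad S T) (h0 : 0 ≤ θ) (h1 : θ ≤ 1 / 2)
    (hP : ∀ f : G → ℝ, P.mulVec f = W θ S f) (lam : ℝ)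
    (hlam : lam ∈ spectrum ℝ P) (h2 : lam ≠ 1) : |lam| ≤ 7 / 8 := by
  rw [← Matrix.spectrum_toLin', ← Module.End.hasEigenvalue_iff_mem_spectrum] at hlam
  obtain ⟨f, hf⟩ := hlam.exists_hasEigenvector
  have hf0 := hf.2
  have hf1 := hf.apply_eq_smul
  rw [Matrix.toLin'_apply, hP] at hf1
  have hθ : 0 < 1 - θ := by linarith
  have h3 : ∀ x, U S f x = ((lam - θ) / (1 - θ)) * f x := by
    intro x
    have := congrFun hf1 x
    rw [W_apply, Pi.smul_apply, smul_eq_mul] at this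
    field_simp
    linarith
  have h4 := h.eigen f hf0 ((lam - θ) / (1 - θ)) h3 (by
    intro h4
    rw [div_eq_one_iff_eq hθ.ne'] at h4
    exact h2 (by linarith))
  rw [abs_div, abs_of_pos hθ, div_le_iff₀ hθ, abs_le] at h4
  rw [abs_le]
  constructor <;> linarith [h4.1, h4.2]

end

end

end Pool.Agent.X127.Cyc
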